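import Pool.Agent.H64.TIU.Law
import Pool.Agent.H40.SLP.TrlA
import Pool.Agent.H92.GN.Vis
import Pool.Agent.H92.GN.Cl

/-!
# A closed slope that is constant on the lines, and its closed code

`clo_code`: numbers `x` (functions of the exact point) which are near numbers `y` (functions of the
line): after a shift of the grid their codes are equal off a small mass, a closed function.
`clo_cst`: the same for values of polynomials of the line in the time with small coefficients of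
order at least one.
-/

set_option autoImplicit false

namespace Pool.KF64

open Finset Real
open Pool.Agent.H49.Ent Pool.Agent.H32.Dense Pool.STK Pool.KA Pool.KSAT Pool.K2S Pool.PB Pool.S6C
open Pool.GEN
open Pool.BFL (Pb)
open Pool.DIR21 (Pb_Pe)
open Pool.DIR16 (Pe_cc cond_cc Pe_le_one)
open Pool.T4H (Pe_mo Pe_le_sum)
open Pool.PB.Trl (rt rt_mem t_rt)
open Pool.RCD

section law

variable {Ω α β : Type} [Fintype Ω] {p : Ω → ℝ}

/-- The code of the numbers `x`, at the accuracy `2 ^ (-X)`, after the shifts `b / N`. -/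
noncomputable def kcd {f : ℕ} (X N : ℕ) (b : Fin f → ℕ) (x : Fin f → ℝ) (l : Fin f) : ℤ :=
  ⌊(2 : ℝ) ^ X * x l + (b l : ℝ) / N⌋

theorem kcd_near {f : ℕ} {X N : ℕ} (hN : 1 ≤ N) {b : Fin f → ℕ} (hb : ∀ l, b l ≤ N)
    (x : Fin f → ℝ) (l : Fin f) : |x l - kcd X N b x l / 2 ^ X| ≤ 1 / 2 ^ X := by
  have pX : (0 : ℝ) < 2 ^ X := by positivity
  have hN0 : (0 : ℝ) < N := by exact_mod_cast hN
  have h1 : (0 : ℝ) ≤ (b l : ℝ) / N := by positivity
  have h2 : (b l : ℝ) / N ≤ 1 := by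
    rw [div_le_one hN0]
    exact_mod_cast hb l
  have h3 := Int.floor_le ((2 : ℝ) ^ X * x l + (b l : ℝ) / N)
  have h4 := Int.lt_floor_add_one ((2 : ℝ) ^ X * x l + (b l : ℝ) / N)
  have e1 : x l - kcd X N b x l / 2 ^ X = (2 ^ X * x l - kcd X N b x l) / 2 ^ X := by
    field_simp
  rw [e1, abs_div, abs_of_pos pX, div_le_div_iff_of_pos_right pX, abs_le]
  unfold kcd
  constructor <;> linarith

/-- **Equal codes** of near numbers, off a small mass. -/
theorem clo_code {f : ℕ} (hp : IsLaw p) (x y : Ω → Fin f → ℝ) {X N : ℕ} {θ ε : ℝ} (hθ : 0 ≤ θ)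
    (h : Pe p (fun ω => ∃ l, θ < |2 ^ X * x ω l - 2 ^ X * y ω l|) ≤ ε) (hN : 1 ≤ N) :
    ∃ b : Fin f → ℕ, (∀ l, b l ≤ N) ∧
      Pe p (fun ω => kcd X N b (x ω) ≠ kcd X N b (y ω)) ≤ f * (ε + θ + 1 / N) := by
  have h1 : ∀ l : Fin f, ∃ b : ℕ, b ≤ N ∧ Pe p (fun ω => ⌊(2 : ℝ) ^ X * x ω l + (b : ℝ) / N⌋ ≠
      ⌊(2 : ℝ) ^ X * y ω l + (b : ℝ) / N⌋) ≤ ε + θ + 1 / N := fun l => by
    obtain ⟨i, hi, h2⟩ := Pool.PR46.shift_eq hp (fun ω => (2 : ℝ) ^ X * x ω l)
      (fun ω => (2 : ℝ) ^ X * y ω l) (θ := θ) (η := ε) hθ (by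
        rw [Pb_Pe]
        exact (Pe_mo hp.nonneg fun ω h3 => ⟨l, h3⟩).trans h) N hN
    rw [Pb_Pe] at h2
    exact ⟨i, hi.le, h2⟩
  choose b hb hb' using h1
  refine ⟨b, hb, ?_⟩
  have h2 := Pe_le_sum hp.nonneg (n := f)
    (E := fun ω => kcd X N b (x ω) ≠ kcd X N b (y ω))
    (F := fun l ω => ⌊(2 : ℝ) ^ X * x ω l + (b l : ℝ) / N⌋ ≠
      ⌊(2 : ℝ) ^ X * y ω l + (b l : ℝ) / N⌋) (fun ω _ h3 => by
      by_contra hcon
      push Not at hcon
      exact h3 (funext hcon))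
  refine h2.trans ((Finset.sum_le_sum fun l _ => hb' l).trans (le_of_eq ?_))
  rw [Finset.sum_const, Finset.card_univ, Fintype.card_fin, nsmul_eq_mul]

end law

/-- A polynomial with small coefficients of order at least one. -/
theorem poly_cst {D : ℕ} {P : Polynomial ℝ} (hd : P.natDegree ≤ D) {δ u : ℝ}
    (h : ∑ j ∈ range D, |P.coeff (j + 1)| ≤ δ) (hu0 : 0 ≤ u) (hu1 : u ≤ 1) :
    |P.eval u - P.coeff 0| ≤ δ := by
  rw [Polynomial.eval_eq_sum_range' (Nat.lt_succ_of_le hd), Finset.sum_range_succ', pow_zero,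
    mul_one, add_sub_cancel_right]
  refine (Finset.abs_sum_le_sum_abs _ _).trans (le_trans (Finset.sum_le_sum fun j _ => ?_) h)
  rw [abs_mul, abs_of_nonneg (pow_nonneg hu0 _)]
  exact mul_le_of_le_one_right (abs_nonneg _) (pow_le_one₀ hu0 hu1)

/-- **The closed code of slopes which are constant on the lines**, on a part of the event. -/
theorem clo_cst {m J : ℕ} {F : Fam m J} {A : F.Ω → Prop} (hA : 0 < Pe F.p A) {f D W X N : ℕ}
    (xk : PtT F → Fin f → ℝ) (mu : LnT F → Fin f → Polynomial ℝ)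
    (deg : ∀ s l, (mu s l).natDegree ≤ D) {ε ε' θ : ℝ} (hθ : 0 ≤ θ)
    (h1 : Pe (Pool.Agent.H49.Ent.cond F.p A True) (fun ω => ∃ l, θ < 2 ^ X *
      |xk (ptr F J ω) l - (mu (slam F W ω) l).eval (rt F W ω)|) ≤ ε)
    (h2 : Pe (Pool.Agent.H49.Ent.cond F.p A True) (fun ω => ∃ l, θ < 2 ^ X *
      ∑ j ∈ range D, |(mu (slam F W ω) l).coeff (j + 1)|) ≤ ε') (hN : 1 ≤ N) :
    ∃ (b : Fin f → ℕ) (B : F.Ω → Prop), (∀ l, b l ≤ N) ∧ Sub B A ∧
      (1 - f * (ε + ε' + 2 * θ + 1 / N)) * Pe F.p A ≤ Pe F.p B ∧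
      Cl2 (ptr F J) (slam F W) B (fun ω => kcd X N b (xk (ptr F J ω))) := by
  have hp := isLaw_cond F.isLaw hA
  have pX : (0 : ℝ) < 2 ^ X := by positivity
  obtain ⟨b, hb, hb'⟩ := clo_code hp (fun ω => xk (ptr F J ω))
    (fun ω l => (mu (slam F W ω) l).coeff 0) (X := X) (N := N) (θ := 2 * θ) (ε := ε + ε')
    (by positivity) (by
      refine (Pe_mo hp.nonneg (B := fun ω => (∃ l, θ < 2 ^ X *
        |xk (ptr F J ω) l - (mu (slam F W ω) l).eval (rt F W ω)|) ∨ ∃ l, θ < 2 ^ X *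
        ∑ j ∈ range D, |(mu (slam F W ω) l).coeff (j + 1)|) fun ω h3 => ?_).trans
        ((Pool.T4H.Pe_or hp.nonneg _ _).trans (add_le_add h1 h2))
      by_contra hcon
      rw [not_or] at hcon
      obtain ⟨c1, c2⟩ := hcon
      push Not at c1 c2
      obtain ⟨l, hl⟩ := h3
      have m1 := rt_mem F W ω
      have h4 := poly_cst (δ := θ / 2 ^ X) (deg (slam F W ω) l) (by
        rw [le_div_iff₀ pX, mul_comm]
        exact c2 l) m1.1 m1.2
      rw [le_div_iff₀ pX, mul_comm] at h4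
      have h5 := c1 l
      have e1 : 2 ^ X * xk (ptr F J ω) l - 2 ^ X * (mu (slam F W ω) l).coeff 0 =
        2 ^ X * (xk (ptr F J ω) l - (mu (slam F W ω) l).eval (rt F W ω)) +
        2 ^ X * ((mu (slam F W ω) l).eval (rt F W ω) - (mu (slam F W ω) l).coeff 0) := by ring
      rw [e1] at hl
      have h6 := abs_add_le (2 ^ X * (xk (ptr F J ω) l - (mu (slam F W ω) l).eval (rt F W ω)))
        (2 ^ X * ((mu (slam F W ω) l).eval (rt F W ω) - (mu (slam F W ω) l).coeff 0))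
      rw [abs_mul, abs_mul (2 ^ X) ((mu (slam F W ω) l).eval (rt F W ω) - _),
        abs_of_pos pX] at h6
      linarith) hN
  refine ⟨b, fun ω => A ω ∧ kcd X N b (xk (ptr F J ω)) =
    kcd X N b (fun l => (mu (slam F W ω) l).coeff 0), hb, fun ω h3 => h3.1, ?_,
    ⟨fun y => kcd X N b (xk y), fun ω _ => rfl⟩,
    ⟨fun s => kcd X N b (fun l => (mu s l).coeff 0), fun ω h3 => h3.2⟩⟩
  rw [Pe_cc hA, mul_comm]
  refine mul_le_mul_of_nonneg_left ?_ hA.le
  have h3 := Pool.T4H.Pe_not hp (fun ω => kcd X N b (xk (ptr F J ω)) =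
    kcd X N b (fun l => (mu (slam F W ω) l).coeff 0))
  have e2 : (f : ℝ) * (ε + ε' + 2 * θ + 1 / N) = f * (ε + ε' + 2 * θ + 1 / N) := rfl
  have h4 : Pe (Pool.Agent.H49.Ent.cond F.p A True) (fun ω => ¬ (kcd X N b (xk (ptr F J ω)) =
    kcd X N b (fun l => (mu (slam F W ω) l).coeff 0))) ≤ f * (ε + ε' + 2 * θ + 1 / N) := hb'
  linarith

end Pool.KF64
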